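import Mathlib

/-!
# MP_1e20d6_nt: polynomials of degree `(p - 1) / 2` with range sum `k p`

For every `k ≥ 2` and every prime `p ≥ max (7, k + 3)` the polynomial
`x ^ ((p - 1) / 2) + (x + 1) ^ ((p - 1) / 2) + k` over `F_p` has range sum `k p`, degree exactly
`(p - 1) / 2`, and is not of the form `c ((a x + b) ^ ((p - 1) / 2) + 1) + d`.
-/

namespace Pool.Agent.Results.MP_1e20d6_nt.SumsOfTwoCharacters

open Polynomial Finset

/-- The range sum of a polynomial over `F_p`: the sum over all `x` in `F_p` of the representatives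
in `{0, ..., p - 1}` of the values `P(x)`, taken in the natural numbers. -/
def rangeSum (p : ℕ) [NeZero p] (P : (ZMod p)[X]) : ℕ := ∑ x : ZMod p, (P.eval x).val

/-- the polynomial `x ^ ((p - 1) / 2) + (x + 1) ^ ((p - 1) / 2) + k` -/
noncomputable def pol (p k : ℕ) : (ZMod p)[X] :=
  X ^ ((p - 1) / 2) + (X + C 1) ^ ((p - 1) / 2) + C (k : ZMod p)

lemma eval_pol (p k : ℕ) [Fact p.Prime] (hp : p ≠ 2) (x : ZMod p) :
    (pol p k).eval x =
      ((quadraticChar (ZMod p) x + quadraticChar (ZMod p) (x + 1) + k : ℤ) : ZMod p) := by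
  have hc : ringChar (ZMod p) ≠ 2 := by
    rw [ZMod.ringChar_zmod_n]
    exact hp
  have hodd : p % 2 = 1 := (Nat.Prime.eq_two_or_odd (Fact.out : p.Prime)).resolve_left hp
  have h2 : Fintype.card (ZMod p) / 2 = (p - 1) / 2 := by
    rw [ZMod.card]
    omega
  have h1 := quadraticChar_eq_pow_of_char_ne_two' hc x
  have h3 := quadraticChar_eq_pow_of_char_ne_two' hc (x + 1)
  rw [h2] at h1 h3
  unfold pol
  simp only [eval_add, eval_pow, eval_X, eval_C]
  push_cast
  rw [h1, h3]

lemma abs_char_le (p : ℕ) [Fact p.Prime] (x : ZMod p) :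
    -1 ≤ quadraticChar (ZMod p) x ∧ quadraticChar (ZMod p) x ≤ 1 := by
  by_cases hx : x = 0
  · subst hx
    rw [quadraticChar_zero]
    norm_num
  · rcases quadraticChar_dichotomy hx with h | h <;> rw [h] <;> norm_num

lemma val_eq (p k : ℕ) [Fact p.Prime] (hp : p ≠ 2) (hk : 2 ≤ k) (hkp : k + 3 ≤ p) (x : ZMod p) :
    (((pol p k).eval x).val : ℤ) =
      quadraticChar (ZMod p) x + quadraticChar (ZMod p) (x + 1) + k := by
  rw [eval_pol p k hp x]
  obtain ⟨h1, h2⟩ := abs_char_le p x
  obtain ⟨h3, h4⟩ := abs_char_le p (x + 1)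
  rw [ZMod.val_intCast]
  exact Int.emod_eq_of_lt (by omega) (by omega)

lemma rangeSum_pol (p k : ℕ) [Fact p.Prime] (hp : p ≠ 2) (hk : 2 ≤ k) (hkp : k + 3 ≤ p) :
    rangeSum p (pol p k) = k * p := by
  have hc : ringChar (ZMod p) ≠ 2 := by
    rw [ZMod.ringChar_zmod_n]
    exact hp
  have h0 : ∑ x : ZMod p, quadraticChar (ZMod p) x = 0 := quadraticChar_sum_zero hc
  have h1 : ∑ x : ZMod p, quadraticChar (ZMod p) (x + 1) = 0 := by
    rw [← h0]
    exact Equiv.sum_comp (Equiv.addRight (1 : ZMod p)) (fun y => quadraticChar (ZMod p) y)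
  have h2 : ((rangeSum p (pol p k) : ℕ) : ℤ) = ((k * p : ℕ) : ℤ) := by
    unfold rangeSum
    push_cast
    rw [sum_congr rfl fun x _ => val_eq p k hp hk hkp x, sum_add_distrib, sum_add_distrib, h0, h1]
    simp [ZMod.card, mul_comm]
  exact_mod_cast h2

lemma coeff_pol (p k j : ℕ) (hj : 0 < j) :
    (pol p k).coeff j = (if j = (p - 1) / 2 then 1 else 0) + (((p - 1) / 2).choose j : ZMod p) := by
  unfold pol
  rw [coeff_add, coeff_add, coeff_X_pow, coeff_X_add_C_pow, one_pow, one_mul, coeff_C,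
    if_neg hj.ne', add_zero]

lemma natDegree_pol (p k : ℕ) [Fact p.Prime] (hp : 7 ≤ p) : (pol p k).natDegree = (p - 1) / 2 := by
  apply le_antisymm
  · unfold pol
    refine (natDegree_add_le _ _).trans (max_le ((natDegree_add_le _ _).trans (max_le ?_ ?_)) ?_)
    · exact (natDegree_X_pow _).le
    · refine (natDegree_pow_le).trans ?_
      rw [natDegree_X_add_C, mul_one]
    · rw [natDegree_C]
      exact Nat.zero_le _
  · apply le_natDegree_of_ne_zero
    rw [coeff_pol p k _ (by omega), if_pos rfl, Nat.choose_self]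
    have h2 : ((2 : ℕ) : ZMod p) ≠ 0 := by
      rw [Ne, ZMod.natCast_eq_zero_iff]
      intro h
      have := Nat.le_of_dvd (by norm_num) h
      omega
    intro h
    apply h2
    push_cast at h ⊢
    rw [← h]
    ring

lemma not_form (p k : ℕ) [Fact p.Prime] (hp : 7 ≤ p) (a b c d : ZMod p) :
    pol p k ≠ C c * ((C a * X + C b) ^ ((p - 1) / 2) + 1) + C d := by
  intro h
  set m := (p - 1) / 2 with hm
  have hm3 : 3 ≤ m := by omega
  have hmp : m < p := by omega
  have hpp : p.Prime := Fact.out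
  -- `a` is not zero
  have hne : ∀ n : ℕ, 0 < n → n < p → ((n : ℕ) : ZMod p) ≠ 0 := by
    intro n h0 hn
    rw [Ne, ZMod.natCast_eq_zero_iff]
    intro hd
    have := Nat.le_of_dvd h0 hd
    omega
  have hmc : ∀ j, 0 < j → (pol p k).coeff j = (if j = m then 1 else 0) + (m.choose j : ZMod p) :=
    fun j hj => coeff_pol p k j hj
  have hm0 : (pol p k).coeff m = 2 := by
    rw [hmc m (by omega), if_pos rfl, Nat.choose_self]
    norm_num
  have h20 : (2 : ZMod p) ≠ 0 := by
    have := hne 2 (by norm_num) (by omega)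
    exact_mod_cast this
  have ha : a ≠ 0 := by
    rintro rfl
    have h1 : (pol p k).coeff m = 0 := by
      rw [h, C_0, zero_mul, zero_add, ← C_pow, ← C_1, ← C_add, ← C_mul, ← C_add, coeff_C,
        if_neg (by omega)]
    rw [hm0] at h1
    exact h20 h1
  set t := b / a with ht
  have hlin : (C a * X + C b : (ZMod p)[X]) = C a * (X + C t) := by
    rw [mul_add, ← C_mul, ht, mul_div_cancel₀ _ ha]
  have hform : pol p k = C (c * a ^ m) * (X + C t) ^ m + C (c + d) := by
    rw [h, hlin, mul_pow, mul_add, mul_one, ← C_pow, ← mul_assoc, ← C_mul, add_assoc, ← C_add]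
  have hcf : ∀ j, 0 < j → (pol p k).coeff j = c * a ^ m * (t ^ (m - j) * (m.choose j : ZMod p)) := by
    intro j hj
    rw [hform, coeff_add, coeff_C_mul, coeff_X_add_C_pow, coeff_C, if_neg hj.ne', add_zero]
  have e0 : c * a ^ m = 2 := by
    have := hcf m (by omega)
    rw [hm0, Nat.sub_self, pow_zero, Nat.choose_self] at this
    rw [this]
    push_cast
    ring
  have e1 : c * a ^ m * t = 1 := by
    have h1 := hcf (m - 1) (by omega)
    rw [hmc (m - 1) (by omega), if_neg (by omega), zero_add, show m - (m - 1) = 1 by omega,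
      pow_one, Nat.choose_symm_of_eq_add (show m = (m - 1) + 1 by omega), Nat.choose_one_right] at h1
    have h2 := hne m (by omega) hmp
    have h3 : ((m : ℕ) : ZMod p) * (c * a ^ m * t - 1) = 0 := by
      rw [mul_sub, mul_one]
      nth_rewrite 2 [h1]
      ring
    rcases mul_eq_zero.1 h3 with h4 | h4
    · exact absurd h4 h2
    · exact sub_eq_zero.1 h4
  have e2 : c * a ^ m * t ^ 2 = 1 := by
    have h1 := hcf (m - 2) (by omega)
    rw [hmc (m - 2) (by omega), if_neg (by omega), zero_add, show m - (m - 2) = 2 by omega,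
      Nat.choose_symm_of_eq_add (show m = (m - 2) + 2 by omega)] at h1
    have h2 : ((m.choose 2 : ℕ) : ZMod p) ≠ 0 := by
      rw [Ne, ZMod.natCast_eq_zero_iff]
      intro hd
      have h5 : p ∣ m * (m - 1) := by
        have h6 : m.choose 2 * 2 = m * (m - 1) := by
          rw [Nat.choose_two_right]
          exact Nat.div_mul_cancel (Nat.even_mul_pred_self m).two_dvd
        rw [← h6]
        exact Dvd.dvd.mul_right hd _
      rcases (Nat.Prime.dvd_mul hpp).1 h5 with h6 | h6
      · have := Nat.le_of_dvd (by omega) h6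
        omega
      · have := Nat.le_of_dvd (by omega) h6
        omega
    have h3 : ((m.choose 2 : ℕ) : ZMod p) * (c * a ^ m * t ^ 2 - 1) = 0 := by
      rw [mul_sub, mul_one]
      nth_rewrite 2 [h1]
      ring
    rcases mul_eq_zero.1 h3 with h4 | h4
    · exact absurd h4 h2
    · exact sub_eq_zero.1 h4
  have e3 : (c * a ^ m * t) ^ 2 = c * a ^ m * (c * a ^ m * t ^ 2) := by ring
  rw [e1, e2, e0] at e3
  have : (2 : ZMod p) - 1 = 0 := by
    rw [sub_eq_zero]
    rw [one_pow, mul_one] at e3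
    exact e3.symm
  have h10 : (1 : ZMod p) = 0 := by
    rw [← this]
    ring
  exact one_ne_zero h10

/-- For every `k ≥ 2` and every prime `p ≥ max (7, k + 3)` there is a polynomial over `F_p` with range
sum `k p` and degree exactly `(p - 1) / 2` which is not of the form
`c ((a x + b) ^ ((p - 1) / 2) + 1) + d`. -/
theorem result (k : ℕ) (hk : 2 ≤ k) (p : ℕ) [Fact p.Prime] (hp : 7 ≤ p) (hkp : k + 3 ≤ p) :
    ∃ P : (ZMod p)[X], rangeSum p P = k * p ∧ P.natDegree = (p - 1) / 2 ∧
      ∀ a b c d : ZMod p, P ≠ C c * ((C a * X + C b) ^ ((p - 1) / 2) + 1) + C d :=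
  ⟨pol p k, rangeSum_pol p k (by omega) hk hkp, natDegree_pol p k hp, not_form p k hp⟩

end Pool.Agent.Results.MP_1e20d6_nt.SumsOfTwoCharacters
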